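import Pool.Agent.Helper36.TC.Main

set_option autoImplicit false

open Set MeasureTheory Module
open scoped RealInnerProductSpace

universe u

namespace Pool.Agent.Results.MP_9e79c9_gt.CoordinateFree

/-- Let `V` be a real vector space of finite dimension at least three (with its canonical topology), `μ`
any Haar measure on `V` and `K ⊆ V` an o-symmetric convex body such that
`μ (conv ((p + K) ∪ (q + K)))` is the same for all touching pairs of translates `p + K`, `q + K`.  Then
`K` is the unit ball of an inner product on `V`: a centred ellipsoid. -/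
theorem result (V : Type u) [AddCommGroup V] [Module ℝ V] [TopologicalSpace V]
    [IsTopologicalAddGroup V] [ContinuousSMul ℝ V] [T2Space V] [FiniteDimensional ℝ V]
    [MeasurableSpace V] [BorelSpace V] (μ : Measure V) [μ.IsAddHaarMeasure]
    (hd : 3 ≤ finrank ℝ V) (K : Set V) (hconv : Convex ℝ K) (hcomp : IsCompact K)
    (hint : (interior K).Nonempty) (hsym : ∀ x ∈ K, -x ∈ K)
    (h : ∃ c : ENNReal, ∀ p q : V,
      ((fun x => p + x) '' K ∩ (fun x => q + x) '' K).Nonempty →
      interior ((fun x => p + x) '' K) ∩ interior ((fun x => q + x) '' K) = ∅ →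
      μ (convexHull ℝ ((fun x => p + x) '' K ∪ (fun x => q + x) '' K)) = c) :
    ∃ B : V →ₗ[ℝ] V →ₗ[ℝ] ℝ, (∀ x y, B x y = B y x) ∧ (∀ x, x ≠ 0 → 0 < B x x) ∧
      K = {x | B x x ≤ 1} := by
  classical
  let E := EuclideanSpace ℝ (Fin (finrank ℝ V))
  have hdim : finrank ℝ V = finrank ℝ E := finrank_euclideanSpace_fin.symm
  let L : V ≃L[ℝ] E := ContinuousLinearEquiv.ofFinrankEq hdim
  obtain ⟨c, hc⟩ := h
  haveI hH : (μ.map L).IsAddHaarMeasure := L.isAddHaarMeasure_map μ
  have himg : ∀ p : E, (fun x => p + x) '' (L '' K) = L '' ((fun x => L.symm p + x) '' K) := by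
    intro p
    rw [image_image, image_image]
    refine image_congr fun x _ => ?_
    rw [map_add, L.apply_symm_apply]
  have hL : ∀ s : Set V, (μ.map L) (L '' s) = μ s := by
    intro s
    have h1 := L.toHomeomorph.toMeasurableEquiv.map_apply (μ := μ) (L '' s)
    have h2 : (L.toHomeomorph.toMeasurableEquiv : V → E) = L := rfl
    rw [h2] at h1
    rw [h1, preimage_image_eq _ L.injective]
  have hvol : ∀ s : Set E, volume s =
      (Measure.addHaarScalarFactor (volume : Measure E) (μ.map L) : ENNReal) * (μ.map L) s := by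
    intro s
    have h1 := Measure.isAddLeftInvariant_eq_smul (volume : Measure E) (μ.map L)
    conv_lhs => rw [h1]
    rfl
  obtain ⟨f, hf⟩ := TC.all (finrank ℝ V) hd (L '' K) (hconv.linear_image L.toLinearMap)
    (hcomp.image L.continuous) (by
      obtain ⟨x, hx⟩ := hint
      have h1 := L.toHomeomorph.image_interior K
      have h2 : L '' interior K = interior (L '' K) := h1
      rw [← h2]
      exact ⟨L x, x, hx, rfl⟩) (by
      rintro _ ⟨x, hx, rfl⟩
      exact ⟨-x, hsym x hx, map_neg L x⟩)
    ⟨(Measure.addHaarScalarFactor (volume : Measure E) (μ.map L) : ENNReal) * c, by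
      intro p q hpq hpq'
      rw [himg p, himg q] at hpq hpq' ⊢
      have e1 : L '' interior ((fun x => L.symm p + x) '' K) =
          interior (L '' ((fun x => L.symm p + x) '' K)) := L.toHomeomorph.image_interior _
      have e2 : L '' interior ((fun x => L.symm q + x) '' K) =
          interior (L '' ((fun x => L.symm q + x) '' K)) := L.toHomeomorph.image_interior _
      rw [← e1, ← e2, ← image_inter L.injective, image_eq_empty] at hpq'
      rw [← image_inter L.injective, image_nonempty] at hpq
      have e3 : L '' (convexHull ℝ ((fun x => L.symm p + x) '' K ∪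
          (fun x => L.symm q + x) '' K)) = convexHull ℝ (L '' ((fun x => L.symm p + x) '' K ∪
          (fun x => L.symm q + x) '' K)) := L.toLinearMap.image_convexHull _
      rw [← image_union, ← e3, hvol, hL, hc _ _ hpq hpq']⟩
  -- the centre of the ellipsoid is the origin
  have hfa : ∀ x, f x = f.linear x + f 0 := by
    intro x
    have := f.toAffineMap.map_vadd 0 x
    rw [vadd_eq_add, vadd_eq_add, add_zero] at this
    exact this
  have h0 : f 0 = 0 := by
    by_contra hne
    set y : E := f.linear.symm (f 0) with hy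
    have hy0 : y ≠ 0 := by
      intro h1
      apply hne
      have h2 : f.linear y = f 0 := f.linear.apply_symm_apply _
      rw [← h2, h1, map_zero]
    have hyn : 0 < ‖y‖ := norm_pos_iff.2 hy0
    have h1 : f (‖y‖⁻¹ • y) ∈ L '' K := by
      rw [hf]
      refine ⟨_, ?_, rfl⟩
      rw [mem_closedBall_zero_iff, norm_smul, norm_inv, norm_norm, inv_mul_cancel₀ hyn.ne']
    have h2 : -f (‖y‖⁻¹ • y) ∈ L '' K := by
      obtain ⟨x, hx, hxe⟩ := h1
      exact ⟨-x, hsym x hx, by rw [map_neg, hxe]⟩
    rw [hf] at h2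
    obtain ⟨z, hz, hze⟩ := h2
    rw [hfa z, hfa (‖y‖⁻¹ • y)] at hze
    have h3 : f.linear (z + ‖y‖⁻¹ • y + (2 : ℝ) • y) = 0 := by
      rw [map_add, map_add, map_smul (f.linear) (2 : ℝ) y, hy, f.linear.apply_symm_apply, two_smul]
      have h4 : f.linear z = -(f.linear (‖y‖⁻¹ • y) + f 0) - f 0 := by
        rw [← hze]; abel
      rw [h4, hy]
      abel
    have h5 : z + ‖y‖⁻¹ • y + (2 : ℝ) • y = 0 := by
      have := f.linear.injective (h3.trans (map_zero f.linear).symm)
      exact this
    have h6 : z = -((‖y‖⁻¹ + 2) • y) := by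
      rw [add_smul]
      have : z = -(‖y‖⁻¹ • y + (2 : ℝ) • y) := by
        rw [add_assoc] at h5
        exact eq_neg_of_add_eq_zero_left h5
      exact this
    rw [mem_closedBall_zero_iff, h6, norm_neg, norm_smul, Real.norm_of_nonneg (by positivity),
      add_mul, inv_mul_cancel₀ hyn.ne'] at hz
    linarith
  let M : V →ₗ[ℝ] E := f.linear.symm.toLinearMap.comp L.toLinearMap
  have hM : ∀ x, M x = f.linear.symm (L x) := fun x => rfl
  refine ⟨(innerₗ E).compl₁₂ M M, ?_, ?_, ?_⟩
  · intro x y
    show ⟪M x, M y⟫ = ⟪M y, M x⟫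
    exact real_inner_comm _ _
  · intro x hx
    show 0 < ⟪M x, M x⟫
    rw [real_inner_self_eq_norm_sq]
    have h1 : M x ≠ 0 := by
      rw [hM]
      intro h2
      apply hx
      have h3 : L x = 0 := by
        have := congrArg f.linear h2
        rwa [f.linear.apply_symm_apply, map_zero] at this
      exact (map_eq_zero_iff L L.injective).1 h3
    exact pow_pos (norm_pos_iff.2 h1) 2
  · ext x
    show x ∈ K ↔ ⟪M x, M x⟫ ≤ 1
    rw [real_inner_self_eq_norm_sq]
    have h1 : x ∈ K ↔ L x ∈ L '' K := (L.injective.mem_set_image).symm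
    have h2 : ‖M x‖ ^ 2 ≤ 1 ↔ ‖M x‖ ≤ 1 := by
      rw [sq_le_one_iff₀ (norm_nonneg _)]
    rw [h1, hf, h2]
    constructor
    · rintro ⟨z, hz, hze⟩
      rw [hfa, h0, add_zero] at hze
      rw [hM, ← hze, f.linear.symm_apply_apply]
      exact mem_closedBall_zero_iff.1 hz
    · intro h3
      refine ⟨M x, mem_closedBall_zero_iff.2 h3, ?_⟩
      rw [hfa, h0, add_zero, hM, f.linear.apply_symm_apply]

end Pool.Agent.Results.MP_9e79c9_gt.CoordinateFree
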